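import Pool.Agent.U167.SA.Stm7
import Pool.Agent.U396.SA.PPB

/-!
Project SA, package TRL: translations of the half-plane by `(c, 0)`.
-/

set_option autoImplicit false

namespace Pool.Agent.U83.SA

open H974 Finset Filter Topology
open Pool.Agent.U167.SA
open Pool.Agent.U396.SA (okh boxE_mono Hit_mono Hit_incr PM_le_PP)

/-- translation of edge sets by `(c, 0)` -/
def thE (c : ℤ) (G : Set Edg) : Set Edg := {e | (e.1 - c, e.2.1, e.2.2) ∈ G}

/-- translation of vertex sets by `(c, 0)` -/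
def thV (c : ℤ) (A : Set Vtx) : Set Vtx := {v | (v.1 - c, v.2) ∈ A}

theorem Hit_th (k : ℤ) (G : Set Edg) (A : Set Vtx) (n : ℤ) (F : Finset Edg) :
    Hit (thE k G) (thV k A) (n + k) ((trl k 0).mp F) ↔ Hit G A n F := by
  have hset : (↑((trl k 0).mp F) ∩ thE k G : Set Edg) = (trl k 0).φ '' (↑F ∩ G) := by
    rw [LSym.coe_mp]
    ext e
    constructor
    · rintro ⟨⟨e', he', rfl⟩, h2⟩
      refine ⟨e', ⟨he', ?_⟩, rfl⟩
      simpa [thE, trl] using h2
    · rintro ⟨e', ⟨h1, h2⟩, rfl⟩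
      refine ⟨⟨e', h1, rfl⟩, ?_⟩
      simpa [thE, trl] using h2
  constructor
  · rintro ⟨u, hu, v, hv, hr⟩
    rw [hset] at hr
    refine ⟨(trl k 0).ψ.symm u, ?_, (trl k 0).ψ.symm v, ?_, ?_⟩
    · simpa [thV, trl] using hu
    · simp only [trl, col, Equiv.coe_fn_symm_mk] at hv ⊢
      omega
    · rw [← LSym.reach_iff (trl k 0), Equiv.apply_symm_apply, Equiv.apply_symm_apply]
      exact hr
  · rintro ⟨u, hu, v, hv, hr⟩
    refine ⟨(trl k 0).ψ u, ?_, (trl k 0).ψ v, ?_, ?_⟩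
    · simpa [thV, trl] using hu
    · simp only [trl, col, Equiv.coe_fn_mk] at hv ⊢
      omega
    · rw [hset]
      exact LSym.reach _ hr

theorem mp_box (k : ℤ) (M : ℕ) : (trl k 0).mp (boxE M) ⊆ boxE (M + k.natAbs) := by
  rintro ⟨x, y, b⟩ he
  rw [LSym.mem_mp] at he
  cases b
  · simp only [trl, Equiv.coe_fn_symm_mk, boxE, mem_RE_false] at he ⊢
    omega
  · simp only [trl, Equiv.coe_fn_symm_mk, boxE, mem_RE_true] at he ⊢
    omega

theorem PP_th_le (k : ℤ) (G : Set Edg) (A : Set Vtx) (n : ℤ) :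
    PP G A n ≤ PP (thE k G) (thV k A) (n + k) := by
  apply ciSup_le
  intro M
  have h1 : PM G A n M =
      Pr (fun _ => (1/2 : ℝ)) ((trl k 0).mp (boxE M)) (Hit (thE k G) (thV k A) (n + k)) := by
    rw [LSym.pr]
    exact Pr_congr (fun F _ => (Hit_th k G A n F).symm)
  rw [h1]
  exact (Pr_mono_set okh (mp_box k M) (Hit_incr _ _ _ _)).trans (PM_le_PP _ _ _ _)

theorem PP_th (k : ℤ) (G : Set Edg) (A : Set Vtx) (n : ℤ) :
    PP (thE k G) (thV k A) (n + k) = PP G A n := by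
  apply le_antisymm _ (PP_th_le k G A n)
  have h := PP_th_le (-k) (thE k G) (thV k A) (n + k)
  have e1 : thE (-k) (thE k G) = G := by
    ext e; simp [thE]
  have e2 : thV (-k) (thV k A) = A := by
    ext v; simp [thV]
  have e3 : n + k + -k = n := by ring
  rwa [e1, e2, e3] at h

theorem DV_th (k : ℤ) (v : Vtx) : DV k k v ↔ DV 0 0 (v.1 - k, v.2) := by
  simp only [DV, col, ht]
  omega

theorem Dm_th (k : ℤ) : Dm k k = thE k (Dm 0 0) := by
  ext ⟨x, y, b⟩
  cases b <;> simp [Dm, thE, DV, col, ht, src, tgt] <;> omega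

theorem V_th (k : ℤ) : ({((1 + k : ℤ), (0:ℤ))} : Set Vtx) = thV k {((1:ℤ), (0:ℤ))} := by
  ext ⟨x, y⟩
  simp only [thV, Set.mem_singleton_iff, Set.mem_setOf_eq, Prod.mk.injEq]
  omega

theorem t_TRL : TrlStm := by
  intro c n
  rw [Dm_th, V_th]
  exact PP_th c _ _ n

end Pool.Agent.U83.SA
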